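import Mathlib
import Pool.Agent.Hhelper4.BoseChowla
import Pool.Agent.Lib.PNT

/-!
# Maximal type of numerical semigroups: `T(e,m) = D(e,m)` in a cone
-/

namespace Pool.Agent.Results.MP_f608e6_al.Cone

open Finset Pool.Agent.Hhelper4.NS

/-- the least `q` with `s ≤ q(q+1)/2` -/
theorem exists_tri_min (s : ℕ) : ∃ q : ℕ, s ≤ q * (q + 1) / 2 ∧
    ∀ q', s ≤ q' * (q' + 1) / 2 → q ≤ q' := by
  classical
  have hex : ∃ q : ℕ, s ≤ q * (q + 1) / 2 := by
    refine ⟨s, ?_⟩
    rw [Nat.le_div_iff_mul_le (by norm_num)]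
    rcases s with _ | s
    · simp
    · exact Nat.mul_le_mul le_rfl (by omega)
  exact ⟨Nat.find hex, Nat.find_spec hex, fun q' hq' => Nat.find_min' hex hq'⟩

theorem choose_eq (e : ℕ) : (e + 2).choose 2 = e + 1 + e * (e + 1) / 2 := by
  rw [choose_two (e + 1), tri_succ]
  omega

/-- If `q` is least with `m - 1 - e ≤ q(q+1)/2` and `p ≥ q+1` is a prime with `2qp ≤ m`, then
`T(e,m) = D(e,m)`. -/
theorem main {e m q p : ℕ} (he : 3 ≤ e) (hem : e < m) (hm2 : m - 1 - e < e * (e + 1) / 2)
    (hq : m - 1 - e ≤ q * (q + 1) / 2)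
    (hmin : ∀ q', m - 1 - e ≤ q' * (q' + 1) / 2 → q ≤ q')
    (hp : p.Prime) (hqp : q + 1 ≤ p) (hm : 2 * (q * p) ≤ m) : T e m = D e m := by
  rw [D_two hem (by rw [choose_eq]; omega) hq hmin]
  apply le_antisymm
  · exact T_le (by omega) hem hmin
  · rcases Nat.eq_zero_or_pos q with hq0 | hq0
    · subst hq0
      refine le_T_of_sidon (A := {0}) ?_ (by simp) (by omega) hem hq
      intro a ha b hb c hc d hd _
      simp only [mem_singleton] at ha hb hc hd
      subst ha hb hc hd
      simp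
    · haveI : Fact p.Prime := ⟨hp⟩
      obtain ⟨B, hB, hlt, hBs⟩ := exists_sidon_nat p q hq0 hqp
      obtain ⟨A, hA, hAs⟩ := exists_sidon_zmod hm hBs hB hlt
      exact le_T_of_sidon hAs hA (by omega) hem hq

/-- **Main result.** (1) `T(e,m) = D(e,m)` for all `3 ≤ e < m ≤ 1 + 9e/8`.
(2) For each `ε > 0` there is `e₀` such that `T(e,m) = D(e,m)` whenever `e ≥ e₀`, `e < m` and
`(3+ε)(m-1-e) ≤ e`. -/
theorem result :
    (∀ e m : ℕ, 3 ≤ e → e < m → 8 * (m - 1 - e) ≤ e → T e m = D e m) ∧
    (∀ ε : ℝ, 0 < ε → ∃ e₀ : ℕ, ∀ e m : ℕ, e₀ ≤ e → e < m →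
      (3 + ε) * ((m : ℝ) - 1 - e) ≤ e → T e m = D e m) := by
  constructor
  · intro e m he hem h8
    obtain ⟨q, hq, hmin⟩ := exists_tri_min (m - 1 - e)
    rcases Nat.eq_zero_or_pos q with hq0 | hq0
    · subst hq0
      refine main he hem ?_ hq hmin Nat.prime_two (by omega) (by omega)
      have h1 : e ≤ e * (e + 1) / 2 := by
        rw [Nat.le_div_iff_mul_le (by norm_num)]
        exact Nat.mul_le_mul le_rfl (by omega)
      have : 0 * (0 + 1) / 2 = 0 := by norm_num
      omega
    · obtain ⟨p, hp, hqp, hp2⟩ := Nat.exists_prime_lt_and_le_two_mul q (by omega)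
      have h1 : e ≤ e * (e + 1) / 2 := by
        rw [Nat.le_div_iff_mul_le (by norm_num)]
        exact Nat.mul_le_mul le_rfl (by omega)
      refine main he hem (by omega) hq hmin hp hqp ?_
      -- q minimal
      obtain ⟨k, rfl⟩ : ∃ k, q = k + 1 := ⟨q - 1, by omega⟩
      have h2 : k * (k + 1) / 2 < m - 1 - e := by
        by_contra hcon
        have := hmin k (by omega)
        omega
      have h3 : k * (k + 1) = 2 * (k * (k + 1) / 2) := by
        rw [Nat.mul_div_cancel' (Nat.even_mul_succ_self k).two_dvd]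
      have h4 : (k + 1) * p ≤ (k + 1) * (2 * (k + 1)) := Nat.mul_le_mul le_rfl hp2
      have h5 : (k + 1) * (2 * (k + 1)) = 2 * (k * (k + 1)) + 2 * (k + 1) := by ring
      -- m ≥ 9 (k(k+1)/2 + 1) + 1 ≥ 4 (k+1)^2
      have h6 : 8 * (k + 1) ≤ k * (k + 1) + 20 := by
        have : (0:ℤ) ≤ ((k : ℤ) - 3) * ((k : ℤ) - 4) := by
          rcases le_or_gt (k : ℤ) 3 with h | h
          · exact mul_nonneg_of_nonpos_of_nonpos (by linarith) (by linarith)
          · exact mul_nonneg (by linarith) (by linarith)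
        have h7 : (8 : ℤ) * (k + 1) ≤ k * (k + 1) + 20 := by nlinarith
        exact_mod_cast h7
      omega
  · intro ε hε
    -- primes in short intervals
    have hδ : 0 < min (ε / 8) 1 := lt_min (by linarith) one_pos
    set δ := min (ε / 8) 1 with hδdef
    have hδ1 : δ ≤ ε / 8 := min_le_left _ _
    have hδ2 : δ ≤ 1 := min_le_right _ _
    obtain ⟨x₀, hx₀⟩ := Filter.eventually_atTop.1 (Pool.Agent.Lib.PNT.exists_prime_Ioc hδ)
    obtain ⟨N, hN⟩ := exists_nat_ge (max x₀ (64 / ε + 64))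
    have hN1 : x₀ ≤ N := le_trans (le_max_left _ _) hN
    have hN2 : 64 / ε + 64 ≤ N := le_trans (le_max_right _ _) hN
    -- the prime for `N`
    obtain ⟨pN, hpN, hpN1, hpN2⟩ := hx₀ N hN1
    refine ⟨max 3 (2 * (N * pN)), ?_⟩
    intro e m he hem hcone
    have he3 : 3 ≤ e := le_trans (le_max_left _ _) he
    have heN : 2 * (N * pN) ≤ e := le_trans (le_max_right _ _) he
    obtain ⟨q, hq, hmin⟩ := exists_tri_min (m - 1 - e)
    have hcast : ((m - 1 - e : ℕ) : ℝ) = (m : ℝ) - 1 - e := by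
      rw [Nat.cast_sub (by omega), Nat.cast_sub (by omega)]
      simp
    rw [← hcast] at hcone
    have hcone3 : 3 * (m - 1 - e) ≤ e := by
      have : (3 : ℝ) * ((m - 1 - e : ℕ) : ℝ) ≤ e := by
        have h0 : (0 : ℝ) ≤ ((m - 1 - e : ℕ) : ℝ) := Nat.cast_nonneg _
        nlinarith
      exact_mod_cast this
    have h1 : e ≤ e * (e + 1) / 2 := by
      rw [Nat.le_div_iff_mul_le (by norm_num)]
      exact Nat.mul_le_mul le_rfl (by omega)
    rcases Nat.lt_or_ge q N with hqN | hqN
    · -- small q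
      have hNp : N < pN := by exact_mod_cast hpN1
      refine main he3 hem (by omega) hq hmin hpN (by omega) ?_
      have : q * pN ≤ N * pN := Nat.mul_le_mul_right _ hqN.le
      omega
    · obtain ⟨p, hp, hp1, hp2⟩ := hx₀ q (hN1.trans (by exact_mod_cast hqN))
      have hqp : q < p := by exact_mod_cast hp1
      refine main he3 hem (by omega) hq hmin hp hqp ?_
      have hNpos : (64 : ℝ) ≤ N := by
        have : 0 < 64 / ε := by positivity
        linarith
      have hqR : (N : ℝ) ≤ q := by exact_mod_cast hqN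
      obtain ⟨k, rfl⟩ : ∃ k, q = k + 1 := by
        refine ⟨q - 1, ?_⟩
        have : (64 : ℝ) ≤ q := hNpos.trans hqR
        have : 64 ≤ q := by exact_mod_cast this
        omega
      have h2 : k * (k + 1) / 2 < m - 1 - e := by
        by_contra hcon
        have := hmin k (by omega)
        omega
      have h3 : k * (k + 1) = 2 * (k * (k + 1) / 2) := by
        rw [Nat.mul_div_cancel' (Nat.even_mul_succ_self k).two_dvd]
      have h4 : k * (k + 1) ≤ 2 * (m - 1 - e) := by omega
      have h5 : ((k : ℝ)) * (k + 1) ≤ 2 * ((m - 1 - e : ℕ) : ℝ) := by exact_mod_cast h4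
      -- m = s + 1 + e
      have hmR : (m : ℝ) = ((m - 1 - e : ℕ) : ℝ) + 1 + e := by
        rw [hcast]; ring
      set s : ℝ := ((m - 1 - e : ℕ) : ℝ) with hs
      have hm4 : (4 + ε) * s ≤ m := by
        rw [hmR]
        nlinarith
      set x : ℝ := (k : ℝ) + 1 with hx
      have hx64 : 64 / ε + 64 ≤ x := by
        rw [hx]
        push_cast at hqR
        linarith
      have hxε : 64 ≤ ε * x := by
        have h7 : 64 / ε ≤ x := by linarith
        rw [div_le_iff₀ hε] at h7
        linarith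
      have hx0 : 64 ≤ x := by
        have : 0 < 64 / ε := by positivity
        linarith
      have h5' : (x - 1) * x ≤ 2 * s := by
        have : (k : ℝ) = x - 1 := by rw [hx]; ring
        rw [this] at h5
        simpa using h5
      have hpR : (p : ℝ) ≤ (1 + δ) * x := by
        push_cast at hp2
        exact hp2
      have hgoal : (2 : ℝ) * (x * p) ≤ m := by
        have e1 : x * (p : ℝ) ≤ x * ((1 + δ) * x) := mul_le_mul_of_nonneg_left hpR (by linarith)
        have e2 : (4 + ε) * ((x - 1) * x) ≤ (4 + ε) * (2 * s) :=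
          mul_le_mul_of_nonneg_left h5' (by linarith)
        have e3 : δ * (x * x) ≤ ε / 8 * (x * x) := mul_le_mul_of_nonneg_right hδ1 (by positivity)
        have e4 : 64 * x ≤ ε * x * x := mul_le_mul_of_nonneg_right hxε (by linarith)
        nlinarith
      have : ((2 * ((k + 1) * p) : ℕ) : ℝ) ≤ m := by
        push_cast
        exact hgoal
      exact_mod_cast this

end Pool.Agent.Results.MP_f608e6_al.Cone
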