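import Pool.Agent.T3.Main
import Pool.Agent.TG.Unif
import Pool.Agent.TG.Mono
import Pool.Agent.TG.Ratio
import Pool.Agent.TH.Asym

namespace Pool.Agent.Results.MP_f608e6_al.FixedE

open Pool.Agent.Hhelper4.NS Filter Topology

/-- (1) `T 3 m = ⌊2 √m⌋ - 1`; (2) for all `3 ≤ e < m` the order of magnitude of `T e m` for fixed `e` is
`m^((e-2)/(e-1))`, with explicit constants; (3) for fixed `e` and large `m` the upper constant is `3`;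
(4) `T e m` is monotone in `e`; (5) `T e m / D e m → 0`. -/
theorem result :
    (∀ m : ℕ, 4 ≤ m → T 3 m = Nat.sqrt (4 * m) - 1) ∧
    (∀ e m : ℕ, 3 ≤ e → e < m →
      (m : ℝ) ^ (((e : ℝ) - 2) / ((e : ℝ) - 1)) ≤ 11 * ((e : ℝ) - 2) * (T e m : ℝ) ∧
      (T e m : ℝ) ≤ 3 * (e : ℝ) * (m : ℝ) ^ (((e : ℝ) - 2) / ((e : ℝ) - 1))) ∧
    (∀ e : ℕ, 3 ≤ e → ∀ᶠ m : ℕ in atTop,
      (T e m : ℝ) ≤ 3 * (m : ℝ) ^ (((e : ℝ) - 2) / ((e : ℝ) - 1))) ∧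
    (∀ e m : ℕ, 3 ≤ e → e + 1 < m → T e m ≤ T (e + 1) m) ∧
    (∀ e : ℕ, 3 ≤ e → Tendsto (fun m : ℕ => (T e m : ℝ) / (D e m : ℝ)) atTop (𝓝 0)) :=
  ⟨Pool.Agent.T3.T3_eq,
    fun _ _ he hm => ⟨Pool.Agent.TG.T_low3 he hm, Pool.Agent.TG.T_upper he (by omega)⟩,
    fun _ he => Pool.Agent.TH.eventually_le he,
    fun _ _ he hm => Pool.Agent.TG.T_mono (by omega) hm,
    fun _ he => Pool.Agent.TG.ratio he⟩

end Pool.Agent.Results.MP_f608e6_al.FixedE
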