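import Mathlib
import Pool.Agent.Hhelper4.NSDigits

/-!
# Maximal type of numerical semigroups: `m - T(e,m)` and `m - D(e,m)` have the same order
for `e^{k-1} ≤ m ≤ c_k e^k`
-/

namespace Pool.Agent.Results.MP_f608e6_al.Order

open Finset Pool.Agent.Hhelper4.NS

theorem succ_le_choose (e : ℕ) {j : ℕ} (hj : 1 ≤ j) : e + 1 ≤ (e + j).choose j := by
  rw [← Nat.choose_symm_add]
  have h1 : (e + 1).choose e ≤ (e + j).choose e := Nat.choose_le_choose _ (by omega)
  rw [Nat.choose_succ_self_right] at h1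
  exact h1

theorem choose_lt (e : ℕ) {j : ℕ} (hj : 1 ≤ j) : (e + j - 1).choose j < (e + j).choose j := by
  obtain ⟨i, rfl⟩ : ∃ i, j = i + 1 := ⟨j - 1, by omega⟩
  have h1 : (e + (i + 1)).choose (i + 1) = (e + i).choose i + (e + i).choose (i + 1) :=
    Nat.choose_succ_succ' (e + i) i
  have h2 : 0 < (e + i).choose i := Nat.choose_pos (by omega)
  have h3 : e + (i + 1) - 1 = e + i := by omega
  rw [h3]
  omega

/-- The key estimate, with `k = j + 1`. -/
theorem key (j : ℕ) (hj : 1 ≤ j) : ∃ C : ℕ, 0 < C ∧ ∀ e m : ℕ, 3 ≤ e → e < m → e ^ j ≤ m →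
    C * m ≤ e ^ (j + 1) → D e m < m ∧ m ≤ T e m + C * (m - D e m) := by
  set K := (j + 2) ^ j with hK
  set t0 := 10 * K + 20 * (j + 1) with ht0
  set C := (j + 1) ^ (j + 1) + (j + 1).factorial + (t0 + 1) ^ (j + 1) +
    K * (20 ^ j * j.factorial) + 10 with hC
  refine ⟨C, by omega, ?_⟩
  intro e m he hem hm1 hm2
  have hepos : 0 < e ^ j := Nat.pos_of_ne_zero (pow_ne_zero _ (by omega))
  have hCe : C ≤ e := by
    have h1 : C * e ^ j ≤ C * m := Nat.mul_le_mul le_rfl hm1
    have h2 : C * e ^ j ≤ e * e ^ j := by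
      calc C * e ^ j ≤ C * m := h1
        _ ≤ e ^ (j + 1) := hm2
        _ = e * e ^ j := by ring
    exact Nat.le_of_mul_le_mul_right h2 hepos
  have he10 : 10 ≤ e := by omega
  -- the level
  have hlev1 : (e + j).choose j ≤ m ∧ (2 ≤ j → 3 * (e + j).choose j ≤ 2 * m) := by
    rcases Nat.lt_or_ge j 2 with h | h
    · have : j = 1 := by omega
      subst this
      rw [Nat.choose_one_right]
      exact ⟨by omega, fun h => by omega⟩
    · obtain ⟨i, rfl⟩ : ∃ i, j = i + 2 := ⟨j - 2, by omega⟩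
      have := choose_le_pow he10 i
      constructor
      · omega
      · intro _; omega
  have hlev2 : m < (e + (j + 1)).choose (j + 1) := by
    have h1 := pow_lt_choose (e := e) (j + 1) (by omega)
    have h2 : (j + 1).factorial * m ≤ C * m := Nat.mul_le_mul_right _ (by omega)
    have h3 : (j + 1).factorial * m < (j + 1).factorial * (e + (j + 1)).choose (j + 1) := by omega
    exact Nat.lt_of_mul_lt_mul_left h3
  have hlev := level_eq hlev1.1 hlev2
  set s := m - (e + j).choose j with hs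
  have hD : D e m = (e + j - 1).choose j + lowerMac (j + 1) s := by
    unfold D
    rw [hlev]
    have h1 : e + (j + 1) - 2 = e + j - 1 := by omega
    have h2 : j + 1 - 1 = j := by omega
    have h3 : e + (j + 1) - 1 = e + j := by omega
    rw [h1, h2, h3]
  have hlt := choose_lt e hj
  have hlm := lowerMac_le (j + 1) s
  have hDm : D e m < m := by
    rw [hD]; omega
  refine ⟨hDm, ?_⟩
  have hmD : 1 ≤ m - D e m := by omega
  have hsucc := succ_le_choose e hj
  -- case distinction
  by_cases hcase : j = 1 ∧ 8 * (m - 1 - e) ≤ e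
  · rw [T_eq_D_cone he hem hcase.2]
    have h1 : 1 * (m - D e m) ≤ C * (m - D e m) := Nat.mul_le_mul_right _ (by omega)
    omega
  have hs10 : m ≤ 10 * s := by
    rcases Nat.lt_or_ge j 2 with h | h
    · have hj1 : j = 1 := by omega
      have h8 : ¬ 8 * (m - 1 - e) ≤ e := fun h => hcase ⟨hj1, h⟩
      have h9 : (e + j).choose j = e + 1 := by
        rw [hj1, Nat.choose_one_right]
      omega
    · have := hlev1.2 h
      omega
  -- the base `b`
  have hexb : ∃ b : ℕ, m ≤ b ^ (j + 1) := by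
    refine ⟨m, ?_⟩
    calc m = m ^ 1 := (pow_one m).symm
      _ ≤ m ^ (j + 1) := Nat.pow_le_pow_right (by omega) (by omega)
  classical
  set b := Nat.find hexb with hb
  have hb1 : m ≤ b ^ (j + 1) := Nat.find_spec hexb
  have hb2 : ∀ b' < b, b' ^ (j + 1) < m := fun b' hb' => not_le.1 (Nat.find_min hexb hb')
  have hb0 : 1 ≤ b := by
    by_contra h
    have : b = 0 := by omega
    rw [this] at hb1
    simp at hb1
    omega
  set t := b - 1 with ht
  have htm : t ^ (j + 1) < m := hb2 t (by omega)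
  have hbt : b = t + 1 := by omega
  rcases Nat.lt_or_ge t t0 with htt | htt
  · -- bounded `m`
    have h1 : b ^ (j + 1) ≤ (t0 + 1) ^ (j + 1) := Nat.pow_le_pow_left (by omega) _
    have h2 : m ≤ C := by omega
    have h3 : C * 1 ≤ C * (m - D e m) := Nat.mul_le_mul le_rfl hmD
    omega
  · -- the loss
    have hs0 : s ≠ 0 := by omega
    obtain ⟨n, hn1, hn2, hn3⟩ := lowerMac_loss j s hs0
    have hmDn : (n - 1).choose j ≤ m - D e m := by
      rw [hD]; omega
    have h1 : (n + 1).choose (j + 1) ≤ (n + 1) ^ (j + 1) := Nat.choose_le_pow _ _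
    have h2 : t ^ (j + 1) < (10 * (n + 1)) ^ (j + 1) := by
      calc t ^ (j + 1) < m := htm
        _ ≤ 10 * s := hs10
        _ ≤ 10 * (n + 1) ^ (j + 1) := Nat.mul_le_mul le_rfl (by omega)
        _ ≤ 10 ^ (j + 1) * (n + 1) ^ (j + 1) := by
            apply Nat.mul_le_mul_right
            calc 10 = 10 ^ 1 := by norm_num
              _ ≤ 10 ^ (j + 1) := Nat.pow_le_pow_right (by norm_num) (by omega)
        _ = (10 * (n + 1)) ^ (j + 1) := by rw [mul_pow]
    have h3 : t < 10 * (n + 1) := lt_of_pow_lt_pow_left₀ _ (Nat.zero_le _) h2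
    have h4 : t ≤ 20 * (n - j) := by omega
    have h5 : (n - j) ^ j ≤ j.factorial * (n - 1).choose j := by
      have h6 := Nat.pow_sub_le_descFactorial (n - 1) j
      rw [Nat.descFactorial_eq_factorial_mul_choose] at h6
      have h7 : n - 1 + 1 - j = n - j := by omega
      rw [h7] at h6
      exact h6
    have h6 : t ^ j ≤ 20 ^ j * j.factorial * (m - D e m) := by
      calc t ^ j ≤ (20 * (n - j)) ^ j := Nat.pow_le_pow_left h4 _
        _ = 20 ^ j * (n - j) ^ j := by rw [mul_pow]
        _ ≤ 20 ^ j * (j.factorial * (n - 1).choose j) := Nat.mul_le_mul le_rfl h5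
        _ ≤ 20 ^ j * (j.factorial * (m - D e m)) :=
            Nat.mul_le_mul le_rfl (Nat.mul_le_mul le_rfl hmDn)
        _ = 20 ^ j * j.factorial * (m - D e m) := by ring
    -- the construction
    haveI : NeZero m := ⟨by omega⟩
    obtain ⟨A, hA0, hAcard, hAc⟩ := exists_cover (m := m) hb0 hb1
    rw [← ht] at hAcard
    have htpos : 1 ≤ t := by omega
    have h7 : (A.card + 1) ^ j ≤ K * t ^ j := by
      calc (A.card + 1) ^ j ≤ ((j + 2) * t) ^ j := by
            apply Nat.pow_le_pow_left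
            have : (j + 2) * t = (j + 1) * t + t := by ring
            omega
        _ = K * t ^ j := by rw [mul_pow, hK]
    have h8 : 10 * (K * t ^ j) < m := by
      calc 10 * (K * t ^ j) = (10 * K) * t ^ j := by ring
        _ ≤ t * t ^ j := Nat.mul_le_mul_right _ (by omega)
        _ = t ^ (j + 1) := by ring
        _ < m := htm
    have h9 : A.card ≤ e := by
      have h10 : ((j + 1) * t) ^ (j + 1) ≤ e ^ (j + 1) := by
        calc ((j + 1) * t) ^ (j + 1) = (j + 1) ^ (j + 1) * t ^ (j + 1) := by rw [mul_pow]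
          _ ≤ (j + 1) ^ (j + 1) * m := Nat.mul_le_mul le_rfl htm.le
          _ ≤ C * m := Nat.mul_le_mul_right _ (by omega)
          _ ≤ e ^ (j + 1) := hm2
      have h11 : (j + 1) * t ≤ e := le_of_pow_le_pow_left₀ (by omega) (Nat.zero_le _) h10
      omega
    have h10 : e + (A.card + 1) ^ (j + 1 - 1) ≤ m := by
      rw [Nat.add_sub_cancel]
      omega
    have h11 := general_construction hAc (by omega) hA0 (by omega) h9 h10
    rw [Nat.add_sub_cancel] at h11
    have h12 : K * t ^ j ≤ C * (m - D e m) := by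
      calc K * t ^ j ≤ K * (20 ^ j * j.factorial * (m - D e m)) := Nat.mul_le_mul le_rfl h6
        _ = K * (20 ^ j * j.factorial) * (m - D e m) := by ring
        _ ≤ C * (m - D e m) := Nat.mul_le_mul_right _ (by omega)
    omega

/-- **Main result.** For each `k ≥ 2` there is a constant `C` such that
`m - T(e,m) ≤ C (m - D(e,m))` for all `3 ≤ e < m` with `e^{k-1} ≤ m ≤ e^k / C`. -/
theorem result : ∀ k : ℕ, 2 ≤ k → ∃ C : ℕ, 0 < C ∧ ∀ e m : ℕ, 3 ≤ e → e < m →
    e ^ (k - 1) ≤ m → C * m ≤ e ^ k →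
    (m : ℤ) - T e m ≤ C * ((m : ℤ) - D e m) := by
  intro k hk
  obtain ⟨j, rfl⟩ : ∃ j, k = j + 1 := ⟨k - 1, by omega⟩
  obtain ⟨C, hC, h⟩ := key j (by omega)
  refine ⟨C, hC, ?_⟩
  intro e m he hem h1 h2
  rw [Nat.add_sub_cancel] at h1
  obtain ⟨h3, h4⟩ := h e m he hem h1 h2
  have h5 : ((m - D e m : ℕ) : ℤ) = (m : ℤ) - D e m := by
    rw [Nat.cast_sub h3.le]
  rw [← h5]
  have h6 : (m : ℤ) ≤ T e m + C * ((m - D e m : ℕ) : ℤ) := by exact_mod_cast h4
  linarith

end Pool.Agent.Results.MP_f608e6_al.Order
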