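import Mathlib
import Pool.Agent.Hhelper4.NSSidon

/-!
# Maximal type of numerical semigroups: the bound `D(e,m)` is attained for triangular
`m - 1 - e` exactly when `ZMod m` has a large Sidon set
-/

namespace Pool.Agent.Results.MP_f608e6_al.SidonCriterion

open Finset Pool.Agent.Hhelper4.NS

theorem tri_lt {q e : ℕ} (h : q < e) : q * (q + 1) / 2 < e * (e + 1) / 2 := by
  have h1 : (q + 1) * (q + 1 + 1) / 2 ≤ e * (e + 1) / 2 := by
    apply Nat.div_le_div_right
    exact Nat.mul_le_mul (by omega) (by omega)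
  rw [tri_succ] at h1
  omega

theorem tri_le {q e : ℕ} (h : q ≤ e) : q * (q + 1) / 2 ≤ e * (e + 1) / 2 := by
  apply Nat.div_le_div_right
  exact Nat.mul_le_mul (by omega) (by omega)

theorem choose_eq (e : ℕ) : (e + 2).choose 2 = e + 1 + e * (e + 1) / 2 := by
  rw [choose_two (e + 1), tri_succ]
  omega

theorem tri_min {q q' : ℕ} (h : q * (q + 1) / 2 ≤ q' * (q' + 1) / 2) : q ≤ q' := by
  by_contra hlt
  have := tri_lt (show q' < q by omega)
  omega

/-- the value of the bound -/
theorem D_tri {e q : ℕ} (he : 3 ≤ e) (hq : q ≤ e) :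
    D e (e + 1 + q * (q + 1) / 2) = e + 1 + q * (q + 1) / 2 - 1 - q := by
  rcases Nat.lt_or_ge q e with h | h
  · apply D_two (by omega)
    · rw [choose_eq]
      have := tri_lt h
      omega
    · omega
    · intro q' hq'
      apply tri_min
      omega
  · have hqe : q = e := le_antisymm hq h
    subst hqe
    have h1 := D_three (e := q) (by omega)
    rw [choose_eq] at h1
    exact h1

/-- The criterion. -/
theorem criterion {e q : ℕ} (he : 3 ≤ e) (hq : q ≤ e) :
    T e (e + 1 + q * (q + 1) / 2) = D e (e + 1 + q * (q + 1) / 2) ↔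
      ∃ A : Finset (ZMod (e + 1 + q * (q + 1) / 2)), A.card = q + 1 ∧ IsSidon A := by
  rw [D_tri he hq]
  set m := e + 1 + q * (q + 1) / 2 with hm
  have hm2 : 2 ≤ m := by omega
  haveI : NeZero m := ⟨by omega⟩
  have hqm : q ≤ q * (q + 1) / 2 := by
    rw [Nat.le_div_iff_mul_le (by norm_num)]
    rcases q with _ | q
    · simp
    · nlinarith
  constructor
  · intro hT
    have hpos : m - 1 - q ≠ 0 := by omega
    have hne : {t | ∃ Γ : AddSubmonoid ℕ,
        IsNumerical Γ ∧ edim Γ = e + 1 ∧ mult Γ = m ∧ type Γ = t}.Nonempty := by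
      by_contra hemp
      rw [Set.not_nonempty_iff_eq_empty] at hemp
      unfold T at hT
      rw [hemp] at hT
      simp at hT
      omega
    have hmem := Nat.sSup_mem hne (T_bdd e m hm2)
    obtain ⟨Γ, h1, h2, h3, h4⟩ := hmem
    obtain ⟨w, hw, rfl⟩ := exists_apery h1 h3 (by omega)
    have a1 := type_add hw hm2
    have a2 := edim_add hw
    have h5 : type (sg w hw) = m - 1 - q := by
      rw [h4]
      exact hT
    exact sidon_of_tight hw (q := q) (by omega) (by omega)
  · rintro ⟨A, hA, hAs⟩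
    apply le_antisymm
    · apply T_le hm2 (by omega)
      intro q' hq'
      apply tri_min
      omega
    · exact le_T_of_sidon hAs hA hm2 (by omega) (by omega)

/-- A planar difference set of order `q` in the cyclic group of order `q² + q + 1`: a set of
`q + 1` residues such that each nonzero residue is the difference of exactly one ordered
pair of elements of the set. -/
def IsPlanarDifferenceSet (q : ℕ) (A : Finset (ZMod (q ^ 2 + q + 1))) : Prop :=
  A.card = q + 1 ∧ ∀ x : ZMod (q ^ 2 + q + 1), x ≠ 0 →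
    ∃! p : ZMod (q ^ 2 + q + 1) × ZMod (q ^ 2 + q + 1), p.1 ∈ A ∧ p.2 ∈ A ∧ p.1 - p.2 = x

theorem planar_iff (q : ℕ) (A : Finset (ZMod (q ^ 2 + q + 1))) :
    IsPlanarDifferenceSet q A ↔ A.card = q + 1 ∧ IsSidon A := by
  classical
  haveI : NeZero (q ^ 2 + q + 1) := ⟨by omega⟩
  unfold IsPlanarDifferenceSet
  constructor
  · rintro ⟨h1, h2⟩
    refine ⟨h1, ?_⟩
    intro a ha b hb c hc d hd habcd
    have h3 : a - c = d - b := by
      rw [sub_eq_sub_iff_add_eq_add, habcd]
      exact add_comm c d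
    by_cases hac : a = c
    · left
      refine ⟨hac, ?_⟩
      rw [hac] at habcd
      exact add_left_cancel habcd
    · right
      have hne : a - c ≠ 0 := fun h => hac (sub_eq_zero.1 h)
      obtain ⟨p, -, hp⟩ := h2 _ hne
      have e1 := hp (a, c) ⟨ha, hc, rfl⟩
      have e2 := hp (d, b) ⟨hd, hb, h3.symm⟩
      have e3 : (a, c) = (d, b) := by rw [e1, e2]
      rw [Prod.mk.injEq] at e3
      exact ⟨e3.1, e3.2.symm⟩
  · rintro ⟨h1, hA⟩
    refine ⟨h1, ?_⟩
    have hinj : Set.InjOn (fun p : ZMod (q ^ 2 + q + 1) × ZMod (q ^ 2 + q + 1) => p.1 - p.2)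
        (A.offDiag : Set (ZMod (q ^ 2 + q + 1) × ZMod (q ^ 2 + q + 1))) := by
      rintro ⟨a, b⟩ hab ⟨c, d⟩ hcd heq
      simp only [coe_offDiag, Set.mem_offDiag, Finset.mem_coe] at hab hcd
      simp only at heq
      have h1 : a + d = c + b := sub_eq_sub_iff_add_eq_add.1 heq
      rcases hA a hab.1 d hcd.2.1 c hcd.1 b hab.2.1 h1 with ⟨rfl, rfl⟩ | ⟨h2, h3⟩
      · rfl
      · exact absurd h2 hab.2.2
    have h2 : (A.offDiag.image (fun p => p.1 - p.2)).card = q ^ 2 + q := by
      rw [card_image_of_injOn hinj, offDiag_card, h1]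
      have : (q + 1) * (q + 1) = q ^ 2 + q + (q + 1) := by ring
      omega
    have h3 : A.offDiag.image (fun p : ZMod (q ^ 2 + q + 1) × ZMod (q ^ 2 + q + 1) => p.1 - p.2)
        ⊆ univ.erase 0 := by
      intro x hx
      obtain ⟨⟨a, b⟩, hab, rfl⟩ := mem_image.1 hx
      rw [mem_offDiag] at hab
      rw [mem_erase]
      exact ⟨fun h => hab.2.2 (sub_eq_zero.1 h), mem_univ _⟩
    have h4 : A.offDiag.image (fun p : ZMod (q ^ 2 + q + 1) × ZMod (q ^ 2 + q + 1) => p.1 - p.2)
        = univ.erase 0 := by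
      apply eq_of_subset_of_card_le h3
      rw [h2, card_erase_of_mem (mem_univ _), card_univ, ZMod.card]
      omega
    intro x hx
    have hx2 : x ∈ A.offDiag.image (fun p : ZMod (q ^ 2 + q + 1) × ZMod (q ^ 2 + q + 1) => p.1 - p.2) := by
      rw [h4, mem_erase]
      exact ⟨hx, mem_univ _⟩
    obtain ⟨⟨a, b⟩, hab, hab2⟩ := mem_image.1 hx2
    rw [mem_offDiag] at hab
    refine ⟨(a, b), ⟨hab.1, hab.2.1, hab2⟩, ?_⟩
    rintro ⟨c, d⟩ ⟨hc, hd, hcd⟩
    have hcdne : c ≠ d := by
      rintro rfl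
      simp only at hcd
      rw [sub_self] at hcd
      exact hx hcd.symm
    apply hinj
    · simp only [coe_offDiag, Set.mem_offDiag, Finset.mem_coe]
      exact ⟨hc, hd, hcdne⟩
    · simp only [coe_offDiag, Set.mem_offDiag, Finset.mem_coe]
      exact hab
    · simp only at hcd hab2 ⊢
      rw [hcd, hab2]

/-- **Main result.** Let `3 ≤ e`, `q ≤ e` and `m = e + 1 + q(q+1)/2`.
(1) `T(e,m) = D(e,m)` if and only if `ZMod m` contains a Sidon set with `q + 1` elements.
(2) If `q(q+1)/2 > e` (that is `m > 2e+1`) then `T(e,m) < D(e,m)`.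
(3) In the boundary case `e = q(q+1)/2`, `m = 2e + 1 = q² + q + 1`, one has `T(e,m) = D(e,m)`
if and only if there is a cyclic planar difference set of order `q`. -/
theorem result :
    (∀ e q : ℕ, 3 ≤ e → q ≤ e →
      (T e (e + 1 + q * (q + 1) / 2) = D e (e + 1 + q * (q + 1) / 2) ↔
        ∃ A : Finset (ZMod (e + 1 + q * (q + 1) / 2)), A.card = q + 1 ∧ IsSidon A)) ∧
    (∀ e q : ℕ, 3 ≤ e → q ≤ e → e < q * (q + 1) / 2 →
      T e (e + 1 + q * (q + 1) / 2) < D e (e + 1 + q * (q + 1) / 2)) ∧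
    (∀ q : ℕ, 2 ≤ q →
      (T (q * (q + 1) / 2) (q ^ 2 + q + 1) = D (q * (q + 1) / 2) (q ^ 2 + q + 1) ↔
        ∃ A : Finset (ZMod (q ^ 2 + q + 1)), IsPlanarDifferenceSet q A)) := by
  refine ⟨fun e q he hq => criterion he hq, ?_, ?_⟩
  · intro e q he hq hlt
    have hm2 : 2 ≤ e + 1 + q * (q + 1) / 2 := by omega
    haveI : NeZero (e + 1 + q * (q + 1) / 2) := ⟨by omega⟩
    apply lt_of_le_of_ne
    · rw [D_tri he hq]
      apply T_le hm2 (by omega)
      intro q' hq'
      apply tri_min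
      omega
    · intro heq
      obtain ⟨A, hA, hAs⟩ := (criterion he hq).1 heq
      have h1 := hAs.card_le
      rw [hA] at h1
      have h2 : (q + 1) * (q + 1 - 1) = 2 * (q * (q + 1) / 2) := by
        rw [Nat.mul_div_cancel' (Nat.even_mul_succ_self q).two_dvd]
        simp [Nat.mul_comm]
      omega
  · intro q hq
    have h2 : q * (q + 1) = 2 * (q * (q + 1) / 2) := by
      rw [Nat.mul_div_cancel' (Nat.even_mul_succ_self q).two_dvd]
    have h3 : q ^ 2 + q + 1 = q * (q + 1) / 2 + 1 + q * (q + 1) / 2 := by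
      have : q ^ 2 + q = q * (q + 1) := by ring
      omega
    have h6 : 2 * 3 ≤ q * (q + 1) := Nat.mul_le_mul hq (by omega)
    have hq2 : q ≤ q * (q + 1) / 2 := by
      rw [Nat.le_div_iff_mul_le (by norm_num)]
      exact Nat.mul_le_mul le_rfl (by omega)
    have key := criterion (e := q * (q + 1) / 2) (q := q) (by omega) hq2
    rw [← h3] at key
    rw [key]
    constructor
    · rintro ⟨A, hA⟩
      exact ⟨A, (planar_iff q A).2 hA⟩
    · rintro ⟨A, hA⟩
      exact ⟨A, (planar_iff q A).1 hA⟩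

end Pool.Agent.Results.MP_f608e6_al.SidonCriterion
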